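import Pool.Agent.H7.HD.Targets11

/-!
# Normal measures of HOD in terms of definable sets of ordinals
-/

open Ordinal Cardinal Order Set
open scoped ZFSet

universe u

namespace Pool.Agent.H89.HDA.HMI

open _root_.HD

/-- the set of ordinals of `x` -/
def S (x : ZFSet.{u}) : Set Ordinal.{u} := {a | a.toZFSet ∈ x}

theorem os_S {x : ZFSet.{u}} {κ : Ordinal.{u}} (hx : x ⊆ κ.toZFSet) : os κ (S x) = x := by
  ext z
  rw [mem_os]
  constructor
  · rintro ⟨a, _, h, rfl⟩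
    exact h
  · intro hz
    obtain ⟨a, ha, rfl⟩ := mem_toZFSet_iff.1 (hx hz)
    exact ⟨a, ha, hz, rfl⟩

theorem os_congr {κ : Ordinal.{u}} {X Y : Set Ordinal.{u}} (h : ∀ b < κ, (b ∈ X ↔ b ∈ Y)) :
    os κ X = os κ Y := by
  ext z
  rw [mem_os, mem_os]
  constructor
  · rintro ⟨a, ha, h1, rfl⟩
    exact ⟨a, ha, (h a ha).1 h1, rfl⟩
  · rintro ⟨a, ha, h1, rfl⟩
    exact ⟨a, ha, (h a ha).2 h1, rfl⟩

theorem os_sub (κ : Ordinal.{u}) (X : Set Ordinal.{u}) : os κ X ⊆ κ.toZFSet := by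
  intro z hz
  obtain ⟨a, ha, -, rfl⟩ := mem_os.1 hz
  exact toZFSet_mem_toZFSet_iff.2 ha

theorem os_mono {κ : Ordinal.{u}} {X Y : Set Ordinal.{u}} (h : ∀ b < κ, b ∈ X → b ∈ Y) :
    os κ X ⊆ os κ Y := by
  intro z hz
  obtain ⟨a, ha, h1, rfl⟩ := mem_os.1 hz
  exact ord_mem_os.2 ⟨ha, h a ha h1⟩

theorem sdiff_os (κ : Ordinal.{u}) (X : Set Ordinal.{u}) : κ.toZFSet \ os κ X = os κ Xᶜ := by
  ext z
  rw [ZFSet.mem_sdiff]
  constructor
  · rintro ⟨h1, h2⟩
    obtain ⟨a, ha, rfl⟩ := mem_toZFSet_iff.1 h1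
    exact ord_mem_os.2 ⟨ha, fun h => h2 (ord_mem_os.2 ⟨ha, h⟩)⟩
  · intro h
    obtain ⟨a, ha, h1, rfl⟩ := mem_os.1 h
    exact ⟨toZFSet_mem_toZFSet_iff.2 ha, fun h2 => h1 (ord_mem_os.1 h2).2⟩

/-- the function `a ↦ os κ {b | R a b}` on `τ` -/
noncomputable def G (τ κ : Ordinal.{u}) (R : Ordinal.{u} → Ordinal.{u} → Prop) : ZFSet.{u} :=
  ZFSet.sep (fun p => ∃ a : Ordinal.{u}, p = ZFSet.pair a.toZFSet (os κ {b | R a b}))
    (ZFSet.prod τ.toZFSet (ZFSet.powerset κ.toZFSet))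

theorem mem_G {τ κ : Ordinal.{u}} {R : Ordinal.{u} → Ordinal.{u} → Prop} {p : ZFSet.{u}} :
    p ∈ G τ κ R ↔ ∃ a < τ, p = ZFSet.pair a.toZFSet (os κ {b | R a b}) := by
  unfold G
  rw [ZFSet.mem_sep]
  constructor
  · rintro ⟨h1, a, rfl⟩
    rw [ZFSet.pair_mem_prod, toZFSet_mem_toZFSet_iff] at h1
    exact ⟨a, h1.1, rfl⟩
  · rintro ⟨a, ha, rfl⟩
    rw [ZFSet.pair_mem_prod, toZFSet_mem_toZFSet_iff, ZFSet.mem_powerset]
    exact ⟨⟨ha, os_sub _ _⟩, a, rfl⟩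

theorem pair_mem_G {τ κ : Ordinal.{u}} {R : Ordinal.{u} → Ordinal.{u} → Prop}
    {z x : ZFSet.{u}} : ZFSet.pair z x ∈ G τ κ R ↔
      ∃ a < τ, z = a.toZFSet ∧ x = os κ {b | R a b} := by
  rw [mem_G]
  constructor
  · rintro ⟨a, ha, h⟩
    obtain ⟨h1, h2⟩ := ZFSet.pair_injective h
    exact ⟨a, ha, h1, h2⟩
  · rintro ⟨a, ha, rfl, rfl⟩
    exact ⟨a, ha, rfl⟩

theorem od_G {R : Ordinal.{u} → Ordinal.{u} → Prop} (hR : DR R) (τ κ : Ordinal.{u}) :
    OD (G τ κ R) := by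
  obtain ⟨Q, hQ, h⟩ := hR
  have e : ∀ a b : Ordinal.{u}, (R a b ↔ Q (cons a.toZFSet fun _ => b.toZFSet)) := by
    intro a b
    have h1 := h (cns a fun _ => b)
    rw [ov_cns] at h1
    exact h1
  refine OD.of_mem (P := fun v => ∃ a ∈ τ.toZFSet, ∃ x, v 0 = ZFSet.pair a x ∧
    ∀ z, (z ∈ x ↔ z ∈ κ.toZFSet ∧ Q (cons a fun _ => z))) ?_ fun v => ?_
  · refine DZ.od (R := fun t v => ∃ a ∈ t, ∃ x, v 0 = ZFSet.pair a x ∧
      ∀ z, (z ∈ x ↔ z ∈ κ.toZFSet ∧ Q (cons a fun _ => z))) (OD.ordinal τ) ?_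
    refine DZ.od (R := fun k v => ∃ a ∈ v 0, ∃ x, v 1 = ZFSet.pair a x ∧
      ∀ z, (z ∈ x ↔ z ∈ k ∧ Q (cons a fun _ => z))) (OD.ordinal κ) ?_
    refine DZ.exMem (R := fun a v => ∃ x, v 2 = ZFSet.pair a x ∧
      ∀ z, (z ∈ x ↔ z ∈ v 0 ∧ Q (cons a fun _ => z))) 1 ?_
    refine DZ.ex (R := fun x v => v 3 = ZFSet.pair (v 0) x ∧
      ∀ z, (z ∈ x ↔ z ∈ v 1 ∧ Q (cons (v 0) fun _ => z))) ?_
    refine DZ.and (loc_pair 4 1 0).dz ?_
    refine DZ.all (R := fun z v => (z ∈ v 0 ↔ z ∈ v 2 ∧ Q (cons (v 1) fun _ => z))) ?_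
    refine (DZ.mem 0 1).iff ((DZ.mem 0 3).and ?_)
    refine (hQ.ren (fun n => if n = 0 then 2 else 0)).congr fun v => ?_
    have : (cons (v 2) fun _ => v 0) = fun n => v (if n = 0 then 2 else 0) := by
      funext n
      rcases n with _ | n <;> simp
    rw [← this]
  · rw [mem_G]
    constructor
    · rintro ⟨a, ha, x, hv, hx⟩
      obtain ⟨α, hα, rfl⟩ := mem_toZFSet_iff.1 ha
      refine ⟨α, hα, ?_⟩
      rw [hv]
      congr 1
      ext z
      rw [hx, mem_os]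
      constructor
      · rintro ⟨h1, h2⟩
        obtain ⟨b, hb, rfl⟩ := mem_toZFSet_iff.1 h1
        exact ⟨b, hb, (e α b).2 h2, rfl⟩
      · rintro ⟨b, hb, h2, rfl⟩
        exact ⟨toZFSet_mem_toZFSet_iff.2 hb, (e α b).1 h2⟩
    · rintro ⟨a, ha, hv⟩
      refine ⟨a.toZFSet, toZFSet_mem_toZFSet_iff.2 ha, _, hv, fun z => ?_⟩
      rw [mem_os]
      constructor
      · rintro ⟨b, hb, h2, rfl⟩
        exact ⟨toZFSet_mem_toZFSet_iff.2 hb, (e a b).1 h2⟩
      · rintro ⟨h1, h2⟩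
        obtain ⟨b, hb, rfl⟩ := mem_toZFSet_iff.1 h1
        exact ⟨b, hb, (e a b).2 h2, rfl⟩

theorem hod_G {R : Ordinal.{u} → Ordinal.{u} → Prop} (hR : DR R) (τ κ : Ordinal.{u}) :
    HOD (G τ κ R) :=
  hod_iff.2 ⟨od_G hR τ κ, fun y hy => by
    obtain ⟨a, -, rfl⟩ := mem_G.1 hy
    exact (HOD.ordinal a).pair (hod_os (DO.sect1 hR a) κ)⟩

theorem func_G {R : Ordinal.{u} → Ordinal.{u} → Prop} {τ κ : Ordinal.{u}} {W : ZFSet.{u}}
    (h : ∀ a < τ, os κ {b | R a b} ∈ W) : ZFSet.IsFunc τ.toZFSet W (G τ κ R) := by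
  constructor
  · intro p hp
    obtain ⟨a, ha, rfl⟩ := mem_G.1 hp
    exact ZFSet.pair_mem_prod.2 ⟨toZFSet_mem_toZFSet_iff.2 ha, h a ha⟩
  · intro z hz
    obtain ⟨a, ha, rfl⟩ := mem_toZFSet_iff.1 hz
    refine ⟨os κ {b | R a b}, pair_mem_G.2 ⟨a, ha, rfl, rfl⟩, fun x hx => ?_⟩
    obtain ⟨a', _, h1, h2⟩ := pair_mem_G.1 hx
    rw [h2, toZFSet_injective h1]

theorem hrel (f : ZFSet.{u}) (hf : OD f) : DR fun a b : Ordinal.{u} =>
    ∃ x, ZFSet.pair a.toZFSet x ∈ f ∧ b.toZFSet ∈ x := by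
  refine ⟨fun v => ∃ x, ZFSet.pair (v 0) x ∈ f ∧ v 1 ∈ x, ?_, fun _ => Iff.rfl⟩
  refine DZ.od (R := fun F v => ∃ x, ZFSet.pair (v 0) x ∈ F ∧ v 1 ∈ x) hf ?_
  refine DZ.ex (R := fun x v => ZFSet.pair (v 1) x ∈ v 0 ∧ v 2 ∈ x) ?_
  exact (loc_pmem 2 0 1).dz.and (DZ.mem 3 0)

/-- completeness -/
theorem cpl {κ : Ordinal.{u}} {W : ZFSet.{u}} (h : HMeas κ W) {τ : Ordinal.{u}} (hτ : τ < κ)
    {R : Ordinal.{u} → Ordinal.{u} → Prop} (hR : DR R) (h1 : ∀ a < τ, os κ {b | R a b} ∈ W) :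
    os κ {b | ∀ a < τ, R a b} ∈ W := by
  have h2 := h.compl τ hτ (G τ κ R) (hod_G hR τ κ) (func_G h1)
  have e : (κ.toZFSet).sep (fun b => ∀ a x, ZFSet.pair a x ∈ G τ κ R → b ∈ x) =
      os κ {b | ∀ a < τ, R a b} := by
    ext z
    rw [ZFSet.mem_sep, mem_os]
    constructor
    · rintro ⟨hz, h3⟩
      obtain ⟨b, hb, rfl⟩ := mem_toZFSet_iff.1 hz
      refine ⟨b, hb, fun a ha => ?_, rfl⟩
      exact (ord_mem_os.1 (h3 _ _ (pair_mem_G.2 ⟨a, ha, rfl, rfl⟩))).2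
    · rintro ⟨b, hb, h3, rfl⟩
      refine ⟨toZFSet_mem_toZFSet_iff.2 hb, fun a x hx => ?_⟩
      obtain ⟨a', ha', rfl, rfl⟩ := pair_mem_G.1 hx
      exact ord_mem_os.2 ⟨hb, h3 a' ha'⟩
  rwa [e] at h2

theorem ne_dr : DR fun a b : Ordinal.{u} => b ≠ a := (DO.eq 1 0).not

theorem one {κ : Ordinal.{u}} {W : ZFSet.{u}} (h : HMeas κ W) : NMe κ W := by
  have hult : ∀ X : Set Ordinal.{u}, DS X → (os κ X ∈ W ↔ os κ Xᶜ ∉ W) := by
    intro X hX
    have h1 := h.ultra (os κ X) (hod_os hX κ) (os_sub κ X)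
    rwa [sdiff_os] at h1
  have hup : ∀ X Y : Set Ordinal.{u}, DS X → DS Y → os κ X ∈ W → (∀ b < κ, b ∈ X → b ∈ Y) →
      os κ Y ∈ W := fun X Y _ hY h1 h2 =>
    h.up _ h1 _ (hod_os hY κ) (os_mono h2) (os_sub κ Y)
  have hne : ∀ a < κ, os κ {b | b ≠ a} ∈ W := by
    intro a ha
    have hds : DS {b : Ordinal.{u} | b = a} := DO.eqc 0 a
    by_contra h1
    have h2 : os κ {b | b = a} ∈ W := by
      rw [hult _ hds]
      exact h1
    refine h.nonpr a ha ?_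
    have e : os κ {b | b = a} = {a.toZFSet} := by
      ext z
      rw [mem_os, ZFSet.mem_singleton]
      constructor
      · rintro ⟨b, _, hb, rfl⟩
        rw [show b = a from hb]
      · rintro rfl
        exact ⟨a, ha, rfl, rfl⟩
    rwa [e] at h2
  have hlim : IsSuccLimit κ := by
    rw [isSuccLimit_iff]
    constructor
    · intro hmin
      have h0 : κ = 0 := hmin
      have h1 := hult ∅ (DO.cst False)
      have e : os κ (∅ : Set Ordinal.{u})ᶜ = os κ ∅ :=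
        os_congr fun b hb => absurd hb (by rw [h0]; exact not_lt_bot)
      rw [e] at h1
      tauto
    · rw [isSuccPrelimit_iff_succ_ne]
      intro l hl
      have hlκ : l < κ := by
        rw [← hl]
        exact lt_succ l
      have h1 := cpl h hlκ ne_dr fun a ha => hne a (ha.trans hlκ)
      refine h.nonpr l hlκ ?_
      have e : os κ {b | ∀ a < l, b ≠ a} = {l.toZFSet} := by
        ext z
        rw [mem_os, ZFSet.mem_singleton]
        constructor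
        · rintro ⟨b, hb, h2, rfl⟩
          have hbl : b ≤ l := by
            rw [← hl] at hb
            exact lt_succ_iff.1 hb
          rcases hbl.eq_or_lt with h3 | h3
          · rw [h3]
          · exact absurd rfl (h2 b h3)
        · rintro rfl
          exact ⟨l, hlκ, fun a ha => (ne_of_lt ha).symm, rfl⟩
      rwa [e] at h1
  refine ⟨hlim, h.hod, h.sub, hult, hup, ?_, ?_, ?_⟩
  · intro X Y hX hY h1 h2
    have h0 : 0 < κ := hlim.bot_lt
    have h2κ : (2 : Ordinal.{u}) < κ := by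
      have h3 := hlim.succ_lt (hlim.succ_lt h0)
      have e : succ (succ (0 : Ordinal.{u})) = 2 := by
        rw [Order.succ_eq_add_one, Order.succ_eq_add_one, zero_add]
        exact one_add_one_eq_two
      rwa [e] at h3
    have hR : DR fun a b : Ordinal.{u} => (a = 0 ∧ b ∈ X) ∨ (a ≠ 0 ∧ b ∈ Y) :=
      ((DO.eqc 0 0).and (hX.ren fun _ => 1)).or ((DO.eqc 0 0).not.and (hY.ren fun _ => 1))
    have h3 := cpl h h2κ hR fun a _ => by
      by_cases ha : a = 0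
      · have e : os κ {b | (a = 0 ∧ b ∈ X) ∨ (a ≠ 0 ∧ b ∈ Y)} = os κ X :=
          os_congr fun b _ => by simp [ha]
        rwa [e]
      · have e : os κ {b | (a = 0 ∧ b ∈ X) ∨ (a ≠ 0 ∧ b ∈ Y)} = os κ Y :=
          os_congr fun b _ => by simp [ha]
        rwa [e]
    have e : os κ {b | ∀ a < (2 : Ordinal.{u}), (a = 0 ∧ b ∈ X) ∨ (a ≠ 0 ∧ b ∈ Y)} =
        os κ (X ∩ Y) := by
      refine os_congr fun b _ => ?_
      constructor
      · intro h4
        have h5 := h4 0 (by exact zero_lt_two)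
        have h6 := h4 1 (by exact one_lt_two)
        simp at h5 h6
        exact ⟨h5, h6⟩
      · rintro ⟨h4, h5⟩ a _
        by_cases ha : a = 0
        · exact Or.inl ⟨ha, h4⟩
        · exact Or.inr ⟨ha, h5⟩
    rwa [e] at h3
  · intro a ha
    have h1 := cpl h (hlim.succ_lt ha) ne_dr fun c hc =>
      hne c (hc.trans (hlim.succ_lt ha))
    have e : os κ {b | ∀ c < succ a, b ≠ c} = os κ {b | a < b} := by
      refine os_congr fun b _ => ?_
      constructor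
      · intro h2
        by_contra h3
        exact h2 b (lt_succ_iff.2 (not_lt.1 h3)) rfl
      · rintro h2 c hc rfl
        exact absurd (lt_succ_iff.1 hc) (not_le.2 h2)
    rwa [e] at h1
  · intro R hR h1
    have h2 := h.normal (G κ κ R) (hod_G hR κ κ) (func_G h1)
    have e : (κ.toZFSet).sep (fun b => ∀ a x, a ∈ b → ZFSet.pair a x ∈ G κ κ R → b ∈ x) =
        os κ {b | ∀ a < b, R a b} := by
      ext z
      rw [ZFSet.mem_sep, mem_os]
      constructor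
      · rintro ⟨hz, h3⟩
        obtain ⟨b, hb, rfl⟩ := mem_toZFSet_iff.1 hz
        refine ⟨b, hb, fun a ha => ?_, rfl⟩
        exact (ord_mem_os.1 (h3 _ _ (toZFSet_mem_toZFSet_iff.2 ha)
          (pair_mem_G.2 ⟨a, ha.trans hb, rfl, rfl⟩))).2
      · rintro ⟨b, hb, h3, rfl⟩
        refine ⟨toZFSet_mem_toZFSet_iff.2 hb, fun a x hab hx => ?_⟩
        obtain ⟨a', ha', rfl, rfl⟩ := pair_mem_G.1 hx
        exact ord_mem_os.2 ⟨hb, h3 a' (toZFSet_mem_toZFSet_iff.1 hab)⟩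
    rwa [e] at h2

theorem two {κ : Ordinal.{u}} {W : ZFSet.{u}} (h : NMe κ W) : HMeas κ W := by
  have hW : ∀ x ∈ W, HOD x := fun x hx => (hod_iff.1 h.hod).2 x hx
  have hemp : os κ ∅ ∉ W := by
    intro h1
    have hd : DS (∅ : Set Ordinal.{u}) := DO.cst False
    have hd' : DS (univ : Set Ordinal.{u}) := DO.cst True
    have h2 := (h.ult ∅ hd).1 h1
    refine h2 ?_
    rw [compl_empty]
    exact h.up ∅ univ hd hd' h1 fun b _ _ => trivial
  have huniv : os κ univ ∈ W := by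
    have hd' : DS (univ : Set Ordinal.{u}) := DO.cst True
    rw [h.ult univ hd', compl_univ]
    exact hemp
  refine ⟨h.hod, h.sub, ?_, ?_, ?_, ?_, ?_⟩
  · intro x hx hxκ
    have h1 := h.ult (S x) hx.od.ds
    rwa [← sdiff_os, os_S hxκ] at h1
  · intro x hx y hy hxy hyκ
    have h1 := h.up (S x) (S y) (hW x hx).od.ds hy.od.ds (by rwa [os_S (h.sub x hx)])
      fun b _ (hb : b.toZFSet ∈ x) => (show b.toZFSet ∈ y from hxy hb)
    rwa [os_S hyκ] at h1
  · intro a ha h1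
    have e : os κ {b | b = a} = {a.toZFSet} := by
      ext z
      rw [mem_os, ZFSet.mem_singleton]
      constructor
      · rintro ⟨b, _, hb, rfl⟩
        rw [show b = a from hb]
      · rintro rfl
        exact ⟨a, ha, rfl, rfl⟩
    rw [← e] at h1
    have h2 := h.int _ _ (show DS {b | b = a} from DO.eqc 0 a)
      (show DS {b | a < b} from DO.gtc 0 a) h1 (h.gt a ha)
    refine hemp ?_
    have e2 : os κ ({b | b = a} ∩ {b | a < b}) = os κ ∅ := by
      refine os_congr fun b _ => ⟨?_, fun h3 => absurd h3 (notMem_empty b)⟩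
      rintro ⟨h3, h4⟩
      exact absurd (show b = a from h3) (ne_of_lt h4).symm
    rwa [e2] at h2
  · intro τ hτ f hf hfn
    set R : Ordinal.{u} → Ordinal.{u} → Prop := fun a b => τ ≤ a ∨
      ∃ x, ZFSet.pair a.toZFSet x ∈ f ∧ b.toZFSet ∈ x with hRdef
    have hR : DR R := (DO.gec 0 τ).or (hrel f hf.od)
    have h1 : ∀ a < κ, os κ {b | R a b} ∈ W := by
      intro a ha
      rcases lt_or_ge a τ with haτ | haτ
      · obtain ⟨x, hx, hux⟩ := hfn.2 a.toZFSet (toZFSet_mem_toZFSet_iff.2 haτ)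
        have hxW : x ∈ W := (ZFSet.pair_mem_prod.1 (hfn.1 hx)).2
        have e : os κ {b | R a b} = x := by
          rw [← os_S (h.sub x hxW)]
          refine os_congr fun b _ => ?_
          constructor
          · rintro (h3 | ⟨x', hx', h3⟩)
            · exact absurd haτ (not_lt.2 h3)
            · rw [← hux x' hx']
              exact h3
          · intro h3
            exact Or.inr ⟨x, hx, h3⟩
        rwa [e]
      · have e : os κ {b | R a b} = os κ univ :=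
          os_congr fun b _ => ⟨fun _ => trivial, fun _ => Or.inl haτ⟩
        rwa [e]
    have h2 := h.nrm R hR h1
    have hRd : DS {b | ∀ a < b, R a b} := by
      refine DO.allLt (R := fun a w => R a (w 0)) 0 ?_
      exact hR.ren fun n => if n = 0 then 0 else 1
    have hTd : DS {b | ∀ a < τ, R a b} := by
      refine (DO.all (R := fun a w => a < τ → R a (w 0)) ?_)
      exact (DO.ltc 0 τ).imp (hR.ren fun n => if n = 0 then 0 else 1)
    have hgd : DS {b | τ < b} := DO.gtc 0 τ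
    have h3 := h.int _ _ hRd hgd h2 (h.gt τ hτ)
    have hid : DS ({b | ∀ a < b, R a b} ∩ {b | τ < b}) := DO.and hRd hgd
    have h4 := h.up _ _ hid hTd h3 (by
      rintro b _ ⟨h5, h6⟩ a ha
      exact h5 a (ha.trans h6))
    have e : (κ.toZFSet).sep (fun b => ∀ a x, ZFSet.pair a x ∈ f → b ∈ x) =
        os κ {b | ∀ a < τ, R a b} := by
      ext z
      rw [ZFSet.mem_sep, mem_os]
      constructor
      · rintro ⟨hz, h5⟩
        obtain ⟨b, hb, rfl⟩ := mem_toZFSet_iff.1 hz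
        refine ⟨b, hb, fun a ha => ?_, rfl⟩
        obtain ⟨x, hx, -⟩ := hfn.2 a.toZFSet (toZFSet_mem_toZFSet_iff.2 ha)
        exact Or.inr ⟨x, hx, h5 _ _ hx⟩
      · rintro ⟨b, hb, h5, rfl⟩
        refine ⟨toZFSet_mem_toZFSet_iff.2 hb, fun a x hx => ?_⟩
        have hp' := ZFSet.pair_mem_prod.1 (hfn.1 hx)
        obtain ⟨a, ha', rfl⟩ := mem_toZFSet_iff.1 hp'.1
        rcases h5 a ha' with h6 | ⟨x', hx', h6⟩
        · exact absurd ha' (not_lt.2 h6)
        · obtain ⟨w, -, hw⟩ := hfn.2 a.toZFSet (toZFSet_mem_toZFSet_iff.2 ha')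
          rw [hw x hx, ← hw x' hx']
          exact h6
    rw [e]
    exact h4
  · intro f hf hfn
    set R : Ordinal.{u} → Ordinal.{u} → Prop := fun a b =>
      ∃ x, ZFSet.pair a.toZFSet x ∈ f ∧ b.toZFSet ∈ x with hRdef
    have hR : DR R := hrel f hf.od
    have h1 : ∀ a < κ, os κ {b | R a b} ∈ W := by
      intro a ha
      obtain ⟨x, hx, hux⟩ := hfn.2 a.toZFSet (toZFSet_mem_toZFSet_iff.2 ha)
      have hxW : x ∈ W := (ZFSet.pair_mem_prod.1 (hfn.1 hx)).2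
      have e : os κ {b | R a b} = x := by
        rw [← os_S (h.sub x hxW)]
        refine os_congr fun b _ => ?_
        constructor
        · rintro ⟨x', hx', h3⟩
          rw [← hux x' hx']
          exact h3
        · intro h3
          exact ⟨x, hx, h3⟩
      rwa [e]
    have h2 := h.nrm R hR h1
    have e : (κ.toZFSet).sep (fun b => ∀ a x, a ∈ b → ZFSet.pair a x ∈ f → b ∈ x) =
        os κ {b | ∀ a < b, R a b} := by
      ext z
      rw [ZFSet.mem_sep, mem_os]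
      constructor
      · rintro ⟨hz, h5⟩
        obtain ⟨b, hb, rfl⟩ := mem_toZFSet_iff.1 hz
        refine ⟨b, hb, fun a ha => ?_, rfl⟩
        obtain ⟨x, hx, -⟩ := hfn.2 a.toZFSet (toZFSet_mem_toZFSet_iff.2 (ha.trans hb))
        exact ⟨x, hx, h5 _ _ (toZFSet_mem_toZFSet_iff.2 ha) hx⟩
      · rintro ⟨b, hb, h5, rfl⟩
        refine ⟨toZFSet_mem_toZFSet_iff.2 hb, fun a x hab hx => ?_⟩
        obtain ⟨a, ha', rfl⟩ := mem_toZFSet_iff.1 hab
        obtain ⟨x', hx', h6⟩ := h5 a ha'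
        obtain ⟨w, -, hw⟩ := hfn.2 a.toZFSet (toZFSet_mem_toZFSet_iff.2 (ha'.trans hb))
        rw [hw x hx, ← hw x' hx']
        exact h6
    rw [e]
    exact h2

theorem X : T_HMI.{u} := fun _ _ => ⟨one, two⟩

end Pool.Agent.H89.HDA.HMI
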